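import Mathlib
import Pool.Agent.W560.EW.Stm

/-!
# Approximate log-concavity (`S_MID`)
-/

set_option autoImplicit false

open Polynomial

namespace Pool.Agent.W398.EW

open Pool.Agent.W560.EW

theorem app_coeff (F : ℝ → ℝ) (p : ℝ[X]) (j : ℕ) :
    (app F p).coeff j = if j ≤ p.natDegree then F (p.coeff j) else 0 := by
  unfold app
  rw [Polynomial.finsetSum_coeff]
  simp only [Polynomial.coeff_monomial]
  rw [Finset.sum_ite_eq' (Finset.range (p.natDegree + 1)) j (fun k => F (p.coeff k))]
  simp only [Finset.mem_range, Nat.lt_succ_iff]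

theorem mid (h : S_LC) : S_MID := by
  intro F hF hP a c ha hc k hk
  have hkR : (0 : ℝ) < k := by exact_mod_cast hk
  set r : ℝ := Real.sqrt (a / c) with hr
  have hr0 : 0 < r := Real.sqrt_pos.mpr (by positivity)
  have hr2 : r * r = a / c := Real.mul_self_sqrt (by positivity)
  set N1 : ℝ := (((2 * k).choose (k + 1) : ℕ) : ℝ) with hN1
  have hN10 : 0 < N1 := by
    have : 0 < (2 * k).choose (k + 1) := Nat.choose_pos (by omega)
    rw [hN1]
    exact_mod_cast this
  set c0 : ℝ := c / (r ^ (k - 1) * N1) with hc0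
  have hc00 : 0 < c0 := by positivity
  set p : ℝ[X] := C c0 * (X + C r) ^ (2 * k) with hp
  have hcoef : ∀ j, p.coeff j = c0 * (r ^ (2 * k - j) * (((2 * k).choose j : ℕ) : ℝ)) := by
    intro j
    rw [hp, Polynomial.coeff_C_mul, Polynomial.coeff_X_add_C_pow]
  have hdeg : p.natDegree = 2 * k := by
    rw [hp, Polynomial.natDegree_C_mul hc00.ne', Polynomial.natDegree_pow,
      Polynomial.natDegree_X_add_C, mul_one]
  have hpos : ∀ j ≤ p.natDegree, 0 < p.coeff j := by
    intro j hj
    rw [hdeg] at hj
    have : 0 < (2 * k).choose j := Nat.choose_pos hj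
    have h2 : (0 : ℝ) < (((2 * k).choose j : ℕ) : ℝ) := by exact_mod_cast this
    rw [hcoef]
    positivity
  have hRR : RR p := by
    intro z hz
    rw [hp] at hz
    simp only [map_mul, map_pow, map_add, Polynomial.aeval_C, Polynomial.aeval_X,
      Complex.coe_algebraMap] at hz
    rcases mul_eq_zero.mp hz with h0 | h0
    · exact absurd (Complex.ofReal_eq_zero.mp h0) hc00.ne'
    · have h1 := pow_eq_zero_iff (by omega : 2 * k ≠ 0) |>.mp h0
      have h2 := congrArg Complex.im h1
      simpa using h2
  have hA := hP p hpos hRR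
  have hnn : ∀ j, 0 ≤ (app F p).coeff j := by
    intro j
    rw [app_coeff]
    split_ifs
    · exact hF _
    · exact le_rfl
  have hlc := h (app F p) hnn hA (k - 1) k (by omega)
  rw [show k - 1 + 1 = k by omega] at hlc
  rw [app_coeff, app_coeff, app_coeff, hdeg, if_pos (by omega), if_pos (by omega),
    if_pos (by omega)] at hlc
  have hchoose : ((2 * k).choose (k + 1)) * (k + 1) = ((2 * k).choose k) * k := by
    have := Nat.choose_succ_right_eq (2 * k) k
    rwa [show 2 * k - k = k by omega] at this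
  have hchooseR : N1 * ((k : ℝ) + 1) = (((2 * k).choose k : ℕ) : ℝ) * (k : ℝ) := by
    rw [hN1]
    exact_mod_cast hchoose
  have hsym : (2 * k).choose (k - 1) = (2 * k).choose (k + 1) := by
    apply Nat.choose_symm_of_eq_add
    omega
  have v3 : p.coeff (k + 1) = c := by
    rw [hcoef, show 2 * k - (k + 1) = k - 1 by omega, ← hN1, hc0]
    field_simp
  have v1 : p.coeff (k - 1) = a := by
    rw [hcoef, hsym, ← hN1, hc0, show 2 * k - (k - 1) = (k - 1) + 2 by omega, pow_add]
    have e : r ^ 2 = a / c := by rw [sq]; exact hr2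
    rw [e]
    field_simp
  have v2 : p.coeff k = (1 + 1 / (k : ℝ)) * Real.sqrt (a * c) := by
    rw [hcoef, show 2 * k - k = (k - 1) + 1 by omega, pow_succ, hc0]
    have e1 : (((2 * k).choose k : ℕ) : ℝ) = N1 * ((k : ℝ) + 1) / k := by
      rw [hchooseR]
      field_simp
    have e2 : Real.sqrt (a * c) = c * r := by
      rw [hr, show a * c = (a / c) * c ^ 2 by field_simp, Real.sqrt_mul (by positivity),
        Real.sqrt_sq hc.le]
      ring
    rw [e1, e2]
    field_simp
  rw [v1, v2, v3] at hlc
  rw [sq]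
  exact hlc

end Pool.Agent.W398.EW
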